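import Mathlib

/-!
# MP_e7d137_lc : a Vorob'ev-regular marginal scenario with a contextual polymatroid

The scenario on `{a, b, c, d, x}` has the two facets `{a, b, c, d}` and `{a, b, x}`. On the first
facet we put the smallest non-representable (Vamos type) polymatroid, and on the second one an
element `x` of rank one lying in both `a` and `b`. In any extension `x` would be a common
information of `a` and `b`, which the first facet does not allow.
-/

namespace Pool.Agent.Results.MP_e7d137_lc.RegularContextual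

/-- A marginal scenario on `{0, ..., n-1}`: a family of subsets closed under taking subsets and
containing the empty set. -/
def IsScenario {n : ℕ} (M : Set (Finset (Fin n))) : Prop :=
  ∅ ∈ M ∧ ∀ S ∈ M, ∀ T, T ⊆ S → T ∈ M

/-- A facet: an inclusion-maximal member. -/
def IsFacet {n : ℕ} (M : Set (Finset (Fin n))) (F : Finset (Fin n)) : Prop :=
  F ∈ M ∧ ∀ S ∈ M, F ⊆ S → S = F

/-- A polymatroid on `{0, ..., n-1}`. -/
def IsPolymatroid {n : ℕ} (f : Finset (Fin n) → ℝ) : Prop :=
  f ∅ = 0 ∧ (∀ S, 0 ≤ f S) ∧ (∀ S T, S ⊆ T → f S ≤ f T) ∧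
    ∀ S T, f (S ∪ T) + f (S ∩ T) ≤ f S + f T

/-- The values of `g` on the members of `M` form a partial polymatroid. -/
def IsPartialPolymatroid {n : ℕ} (M : Set (Finset (Fin n))) (g : M → ℝ) : Prop :=
  (∀ S : M, (S : Finset (Fin n)) = ∅ → g S = 0) ∧ (∀ S, 0 ≤ g S) ∧
    (∀ S T : M, (S : Finset (Fin n)) ⊆ T → g S ≤ g T) ∧
    ∀ S T U I : M, (U : Finset (Fin n)) = (S : Finset (Fin n)) ∪ (T : Finset (Fin n)) →
      (I : Finset (Fin n)) = (S : Finset (Fin n)) ∩ (T : Finset (Fin n)) →
        g U + g I ≤ g S + g T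

/-- A partial polymatroid is non-contextual if it is the restriction of a polymatroid. -/
def NonContextual {n : ℕ} (M : Set (Finset (Fin n))) (g : M → ℝ) : Prop :=
  ∃ f : Finset (Fin n) → ℝ, IsPolymatroid f ∧ ∀ S : M, g S = f S

/-- Vorob'ev-regularity: the facets can be listed without repetition as `F 0, ..., F (k-1)` so that
for each `j > 0` the set `F j ∩ (F 0 ∪ ... ∪ F (j-1))` is contained in some `F i` with `i < j`. -/
def VorobevRegular {n : ℕ} (M : Set (Finset (Fin n))) : Prop :=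
  ∃ (k : ℕ) (F : Fin k → Finset (Fin n)), Function.Injective F ∧
    (∀ A, IsFacet M A ↔ ∃ i, F i = A) ∧
    ∀ j : Fin k, 0 < (j : ℕ) →
      ∃ i, i < j ∧ F j ∩ (Finset.univ.filter (fun l => l < j)).biUnion F ⊆ F i

/-! ### The example -/

/-- The scenario with facets `{0, 1, 2, 3}` and `{0, 1, 4}`. -/
def scen : Set (Finset (Fin 5)) := {S | S ⊆ {0, 1, 2, 3} ∨ S ⊆ {0, 1, 4}}

/-- The values of the partial polymatroid. -/
def gz (S : Finset (Fin 5)) : ℕ :=
  if 4 ∈ S then (if 0 ∈ S ∧ 1 ∈ S then 3 else if 0 ∈ S ∨ 1 ∈ S then 2 else 1)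
  else if S = ∅ then 0
  else if S.card = 1 then 2
  else if S.card = 2 then (if S = {2, 3} then 4 else 3)
  else 4

theorem gz_mono : ∀ S T : Finset (Fin 5), (T ⊆ {0, 1, 2, 3} ∨ T ⊆ {0, 1, 4}) → S ⊆ T →
    gz S ≤ gz T := by
  decide +kernel

theorem gz_sub : ∀ S T : Finset (Fin 5), (S ∪ T ⊆ {0, 1, 2, 3} ∨ S ∪ T ⊆ {0, 1, 4}) →
    gz (S ∪ T) + gz (S ∩ T) ≤ gz S + gz T := by
  decide +kernel

theorem scen_isScenario : IsScenario scen := by
  refine ⟨Or.inl (Finset.empty_subset _), ?_⟩
  rintro S (hS | hS) T hT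
  · exact Or.inl (hT.trans hS)
  · exact Or.inr (hT.trans hS)

theorem scen_regular : VorobevRegular scen := by
  refine ⟨2, ![{0, 1, 2, 3}, {0, 1, 4}], ?_, ?_, ?_⟩
  · decide
  · intro A
    constructor
    · rintro ⟨hA, hmax⟩
      rcases hA with hA | hA
      · exact ⟨0, hmax _ (Or.inl (Finset.Subset.refl _)) hA⟩
      · exact ⟨1, hmax _ (Or.inr (Finset.Subset.refl _)) hA⟩
    · rintro ⟨i, rfl⟩
      fin_cases i
      · refine ⟨Or.inl (Finset.Subset.refl _), ?_⟩
        rintro S (hS | hS) h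
        · exact Finset.Subset.antisymm hS h
        · exfalso
          have := h.trans hS
          revert this
          decide
      · refine ⟨Or.inr (Finset.Subset.refl _), ?_⟩
        rintro S (hS | hS) h
        · exfalso
          have := h.trans hS
          revert this
          decide
        · exact Finset.Subset.antisymm hS h
  · decide

theorem gz_isPartial : IsPartialPolymatroid scen (fun S => (gz S : ℝ)) := by
  refine ⟨?_, fun S => Nat.cast_nonneg _, ?_, ?_⟩
  · intro S hS
    show ((gz S : ℕ) : ℝ) = 0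
    rw [hS]
    norm_num [gz]
  · intro S T hST
    show ((gz S : ℕ) : ℝ) ≤ ((gz T : ℕ) : ℝ)
    exact_mod_cast gz_mono S T T.2 hST
  · intro S T U I hU hI
    have h := gz_sub S T (by rw [← hU]; exact U.2)
    rw [← hU, ← hI] at h
    show ((gz U : ℕ) : ℝ) + ((gz I : ℕ) : ℝ) ≤ ((gz S : ℕ) : ℝ) + ((gz T : ℕ) : ℝ)
    exact_mod_cast h

theorem gz_contextual : ¬ NonContextual scen (fun S => (gz S : ℝ)) := by
  rintro ⟨f, ⟨f0, fpos, fmono, fsub⟩, hf⟩
  have val : ∀ S : Finset (Fin 5), (S ⊆ {0, 1, 2, 3} ∨ S ⊆ {0, 1, 4}) → f S = gz S :=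
    fun S hS => (hf ⟨S, hS⟩).symm
  have va : f {0} = 2 := by
    rw [val _ (by decide), show gz {0} = 2 by decide]; norm_num
  have vb : f {1} = 2 := by
    rw [val _ (by decide), show gz {1} = 2 by decide]; norm_num
  have vx : f {4} = 1 := by
    rw [val _ (by decide), show gz {4} = 1 by decide]; norm_num
  have vax : f {0, 4} = 2 := by
    rw [val _ (by decide), show gz {0, 4} = 2 by decide]; norm_num
  have vbx : f {1, 4} = 2 := by
    rw [val _ (by decide), show gz {1, 4} = 2 by decide]; norm_num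
  have vac : f {0, 2} = 3 := by
    rw [val _ (by decide), show gz {0, 2} = 3 by decide]; norm_num
  have vbc : f {1, 2} = 3 := by
    rw [val _ (by decide), show gz {1, 2} = 3 by decide]; norm_num
  have vad : f {0, 3} = 3 := by
    rw [val _ (by decide), show gz {0, 3} = 3 by decide]; norm_num
  have vbd : f {1, 3} = 3 := by
    rw [val _ (by decide), show gz {1, 3} = 3 by decide]; norm_num
  have vcd : f {2, 3} = 4 := by
    rw [val _ (by decide), show gz {2, 3} = 4 by decide]; norm_num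
  have vabc : f {0, 1, 2} = 4 := by
    rw [val _ (by decide), show gz {0, 1, 2} = 4 by decide]; norm_num
  have vabd : f {0, 1, 3} = 4 := by
    rw [val _ (by decide), show gz {0, 1, 3} = 4 by decide]; norm_num
  -- the element `x = 4` lies in the closure of `a = 0` and of `b = 1`
  have e1 : f {0, 2, 4} ≤ 3 := by
    have h := fsub {0, 4} {0, 2}
    rw [show ({0, 4} ∪ {0, 2} : Finset (Fin 5)) = {0, 2, 4} by decide,
      show ({0, 4} ∩ {0, 2} : Finset (Fin 5)) = {0} by decide] at h
    linarith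
  have e2 : f {1, 2, 4} ≤ 3 := by
    have h := fsub {1, 4} {1, 2}
    rw [show ({1, 4} ∪ {1, 2} : Finset (Fin 5)) = {1, 2, 4} by decide,
      show ({1, 4} ∩ {1, 2} : Finset (Fin 5)) = {1} by decide] at h
    linarith
  have e3 : f {0, 3, 4} ≤ 3 := by
    have h := fsub {0, 4} {0, 3}
    rw [show ({0, 4} ∪ {0, 3} : Finset (Fin 5)) = {0, 3, 4} by decide,
      show ({0, 4} ∩ {0, 3} : Finset (Fin 5)) = {0} by decide] at h
    linarith
  have e4 : f {1, 3, 4} ≤ 3 := by
    have h := fsub {1, 4} {1, 3}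
    rw [show ({1, 4} ∪ {1, 3} : Finset (Fin 5)) = {1, 3, 4} by decide,
      show ({1, 4} ∩ {1, 3} : Finset (Fin 5)) = {1} by decide] at h
    linarith
  have e5 : f {2, 4} ≤ 2 := by
    have h := fsub {0, 2, 4} {1, 2, 4}
    rw [show ({0, 2, 4} ∪ {1, 2, 4} : Finset (Fin 5)) = {0, 1, 2, 4} by decide,
      show ({0, 2, 4} ∩ {1, 2, 4} : Finset (Fin 5)) = {2, 4} by decide] at h
    have h2 := fmono {0, 1, 2} {0, 1, 2, 4} (by decide)
    linarith
  have e6 : f {3, 4} ≤ 2 := by
    have h := fsub {0, 3, 4} {1, 3, 4}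
    rw [show ({0, 3, 4} ∪ {1, 3, 4} : Finset (Fin 5)) = {0, 1, 3, 4} by decide,
      show ({0, 3, 4} ∩ {1, 3, 4} : Finset (Fin 5)) = {3, 4} by decide] at h
    have h2 := fmono {0, 1, 3} {0, 1, 3, 4} (by decide)
    linarith
  have h := fsub {2, 4} {3, 4}
  rw [show ({2, 4} ∪ {3, 4} : Finset (Fin 5)) = {2, 3, 4} by decide,
    show ({2, 4} ∩ {3, 4} : Finset (Fin 5)) = {4} by decide] at h
  have h2 := fmono {2, 3} {2, 3, 4} (by decide)
  linarith

/-- **Main result (negative answer to Q2).** There is a marginal scenario on five variables which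
is Vorob'ev-regular but carries a contextual partial polymatroid. -/
theorem result : ∃ M : Set (Finset (Fin 5)), IsScenario M ∧ VorobevRegular M ∧
    ∃ g : M → ℝ, IsPartialPolymatroid M g ∧ ¬ NonContextual M g :=
  ⟨scen, scen_isScenario, scen_regular, _, gz_isPartial, gz_contextual⟩

end Pool.Agent.Results.MP_e7d137_lc.RegularContextual
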